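import Mathlib
import Pool.Agent.Helper56.TOF.Goals
import Pool.Agent.Helper57.RZ.T1

/-!
# Project TOF (MP_f32c9c_an), packet GDR: derivatives along the flow
-/

set_option autoImplicit false

open Set Filter Topology MeasureTheory

open scoped ContDiff

namespace Pool.Agent.Helper46.TOF

open Pool.Agent.Helper56.RZ Pool.Agent.Helper30.CIR Pool.Agent.Helper56.TOF

theorem smooth_time {K : ℕ} {s : WithTop ℕ∞} {M : Set (E K)} {A : ℝ → E K → E K}
    (h : Flow s M A) (h1s : 1 ≤ s) (t : ℝ) : ContDiffOn ℝ 1 (A t) M := by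
  have h6 : ContDiffOn ℝ 1 (fun x : E K => (t, x)) M := contDiffOn_const.prodMk contDiffOn_id
  exact (h.smooth.of_le h1s).comp h6 fun x hx => ⟨mem_univ _, hx⟩

theorem smooth_hT {K : ℕ} {s : WithTop ℕ∞} {M : Set (E K)} {A : ℝ → E K → E K} {u : E K → ℝ}
    (h : Flow s M A) (h1s : 1 ≤ s) (hu : ContDiffOn ℝ 1 u M) : ContDiffOn ℝ 1 (hT A u) M := by
  have h6 : ContDiffOn ℝ 1 (fun x : E K => (u x, x)) M := hu.prodMk contDiffOn_id
  exact (h.smooth.of_le h1s).comp h6 fun x hx => ⟨mem_univ _, hx⟩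

theorem diff_curve {K : ℕ} {M : Set (E K)} {A : ℝ → E K → E K} {u : E K → ℝ} {x v : E K}
    (hm : ∀ t, A t x ∈ M) (hd : HasDerivAt (fun t => A t x) v 0)
    (hu : DifferentiableWithinAt ℝ u M (A 0 x)) :
    DifferentiableAt ℝ (fun t => u (A t x)) 0 := by
  have h1 : HasDerivWithinAt (u ∘ fun t => A t x) _ univ 0 :=
    hu.hasFDerivWithinAt.comp_hasDerivWithinAt (0 : ℝ) hd.hasDerivWithinAt
      (fun t _ => hm t)
  rw [hasDerivWithinAt_univ] at h1
  exact h1.differentiableAt

theorem gGDR : Pool.Agent.Helper30.CIR.StmtXF → StmtGDR := by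
  intro hXF K s M A u h1s hs hfl hu
  have t2 := Pool.Agent.Helper57.RZ.t2
  have xf := (hXF K s M A h1s hfl).2
  have hTm : MapsTo (hT A u) M M := fun x hx => hfl.maps _ hx
  have hTs := smooth_hT hfl h1s hu
  have part1 : ∀ x ∈ M, DifferentiableAt ℝ (fun t => u (A t x)) 0 := by
    intro x hx
    refine diff_curve (M := M) (fun t => hfl.maps t hx) ((xf x hx).1 0) ?_
    exact hu.differentiableOn one_ne_zero _ (hfl.maps 0 hx)
  have part2 : ∀ x ∈ M, der M (hT A u) x (gen A x) = kapT A u x • gen A (hT A u x) := by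
    intro x hx
    refine (xf x hx).2.2.1 (hT A u) x (fun t => t + u (A t x)) (kapT A u x) hTm hTs hx
      (Eventually.of_forall fun t => ?_) ?_
    · change A (u (A t x)) (A t x) = A (t + u (A t x)) x
      rw [← hfl.add _ _ x hx, add_comm]
    · exact (hasDerivAt_id (0 : ℝ)).add (part1 x hx).hasDerivAt
  have hA : ∀ t, ∀ x ∈ M, der M (A t) x (gen A x) = gen A (A t x) := by
    intro t x hx
    have h := (xf x hx).2.2.1 (A t) (A t x) (fun τ => τ) 1 (hfl.maps t) (smooth_time hfl h1s t)
      (hfl.maps t hx) (Eventually.of_forall fun τ => by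
        rw [← hfl.add _ _ x hx, ← hfl.add _ _ x hx, add_comm]) (hasDerivAt_id _)
    rwa [one_smul] at h
  have hgm : MapsTo (A 1 ∘ hT A u) M M := (hfl.maps 1).comp hTm
  have hA1 := smooth_time hfl h1s 1
  have hg1 : ContDiffOn ℝ 1 (A 1 ∘ hT A u) M := hA1.comp hTs hTm
  have hg : ∀ x ∈ M, der M (A 1 ∘ hT A u) x (gen A x) =
      kapT A u x • gen A ((A 1 ∘ hT A u) x) := by
    intro x hx
    have e := (t2 K M (A 1) (hT A u) x hx).2.2.1 hTm
      (hTs.differentiableOn one_ne_zero x hx)
      (hA1.differentiableOn one_ne_zero _ (hTm hx))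
    have e3 : der M (A 1 ∘ hT A u) x (gen A x) =
        der M (A 1) (hT A u x) (der M (hT A u) x (gen A x)) := by
      rw [e]
      rfl
    rw [e3, part2 x hx, map_smul, hA 1 _ (hTm hx)]
    rfl
  have hitm : ∀ n : ℕ, MapsTo ((A 1 ∘ hT A u)^[n]) M M := fun n => hgm.iterate n
  have hit : ∀ n : ℕ, ContDiffOn ℝ 1 ((A 1 ∘ hT A u)^[n]) M := by
    intro n
    induction n with
    | zero => exact contDiffOn_id
    | succ n ih =>
      rw [Function.iterate_succ']
      exact hg1.comp ih (hitm n)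
  intro x hx
  refine ⟨part1 x hx, part2 x hx, ?_, ?_⟩
  · intro h0
    have h1 : ∀ t, gen A (A t x) = 0 := by
      intro t
      rw [← hA t x hx, h0, map_zero]
    have h2 : ∀ t, HasDerivAt (fun t => A t x) 0 t := by
      intro t
      have := (xf x hx).1 t
      rwa [h1 t] at this
    have h3 : ∀ t, A t x = x := by
      intro t
      have h4 := is_const_of_deriv_eq_zero (f := fun t => A t x)
        (fun t => (h2 t).differentiableAt) (fun t => (h2 t).deriv) t 0
      rw [h4]
      exact hfl.zero x hx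
    refine ⟨h3, ?_⟩
    unfold kapT
    have h5 : (fun t => u (A t x)) = fun _ => u x := by
      funext t
      rw [h3 t]
    rw [h5, deriv_const, add_zero]
  · intro n
    induction n with
    | zero =>
      simp only [Function.iterate_zero, Finset.range_zero, Finset.prod_empty, one_smul, id_eq]
      rw [(t2 K M id id x hx).2.2.2.1]
      exact (xf x hx).2.1
    | succ n ih =>
      have hn : (A 1 ∘ hT A u)^[n] x ∈ M := hitm n hx
      have e := (t2 K M (A 1 ∘ hT A u) ((A 1 ∘ hT A u)^[n]) x hx).2.2.1 (hitm n)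
        ((hit n).differentiableOn one_ne_zero x hx)
        (hg1.differentiableOn one_ne_zero _ hn)
      rw [Function.iterate_succ', e]
      change der M (A 1 ∘ hT A u) ((A 1 ∘ hT A u)^[n] x)
        (der M ((A 1 ∘ hT A u)^[n]) x (gen A x)) = _
      rw [ih, map_smul, hg _ hn, Finset.prod_range_succ, smul_smul]
      rfl

end Pool.Agent.Helper46.TOF
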